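import Pool.Agent.Lib.MP_43d240_ag.H44.Place
import Pool.Agent.Lib.MP_43d240_ag.Frozen.Defs

/-!
# MP_43d240_ag, project PI (E3): zero divisors specialise

If the product of three quaternion algebras with slots which are integral at a place has no zero
divisors over the residue field, then it has no zero divisors.
-/

set_option autoImplicit false
set_option linter.all false

open scoped TensorProduct
open Pool.Agent.Lib.MP_43d240_ag.H44 Module

namespace Pool.Agent.PI.H30

section red

variable {K κ : Type*} [Field K] [Field κ] (O : Subring K) (π : O →+* κ)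

/-- `x` lies in `O` and has value `c`. -/
def Red (x : K) (c : κ) : Prop := ∃ h : x ∈ O, π ⟨x, h⟩ = c

variable {O π}

theorem Red.add {x y : K} {c d : κ} (h : Red O π x c) (h' : Red O π y d) :
    Red O π (x + y) (c + d) := by
  obtain ⟨h1, rfl⟩ := h
  obtain ⟨h2, rfl⟩ := h'
  exact ⟨O.add_mem h1 h2, by rw [← map_add]; rfl⟩

theorem Red.mul {x y : K} {c d : κ} (h : Red O π x c) (h' : Red O π y d) :
    Red O π (x * y) (c * d) := by
  obtain ⟨h1, rfl⟩ := h
  obtain ⟨h2, rfl⟩ := h'
  exact ⟨O.mul_mem h1 h2, by rw [← map_mul]; rfl⟩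

theorem Red.neg {x : K} {c : κ} (h : Red O π x c) : Red O π (-x) (-c) := by
  obtain ⟨h1, rfl⟩ := h
  exact ⟨O.neg_mem h1, by rw [← map_neg]; rfl⟩

theorem red_zero : Red O π 0 0 := ⟨O.zero_mem, map_zero π⟩

theorem red_one : Red O π 1 1 := ⟨O.one_mem, map_one π⟩

theorem Red.sum {ι : Type*} (s : Finset ι) {z : ι → K} {c : ι → κ}
    (h : ∀ i ∈ s, Red O π (z i) (c i)) : Red O π (∑ i ∈ s, z i) (∑ i ∈ s, c i) := by
  classical
  induction s using Finset.induction_on with
  | empty => simpa using red_zero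
  | insert a s ha ih =>
    rw [Finset.sum_insert ha, Finset.sum_insert ha]
    exact (h a (Finset.mem_insert_self _ _)).add
      (ih fun i hi => h i (Finset.mem_insert_of_mem hi))

theorem Red.unique {z : K} {c d : κ} (h : Red O π z c) (h' : Red O π z d) : c = d :=
  h.2.symm.trans h'.2

end red

section alg

variable {K κ : Type*} [Field K] [Field κ] (O : Subring K) (π : O →+* κ)

/-- The structure constants of the two algebras correspond under the place. -/
def StrRed {ι A B : Type*} [Ring A] [Algebra K A] [Ring B] [Algebra κ B] (e : Basis ι K A)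
    (f : Basis ι κ B) : Prop :=
  ∀ i j k, Red O π (e.repr (e i * e j) k) (f.repr (f i * f j) k)

variable {O π}

theorem repr_mul {k A ι : Type*} [Field k] [Ring A] [Algebra k A] [Fintype ι] (e : Basis ι k A)
    (x y : A) (l : ι) :
    e.repr (x * y) l = ∑ i, ∑ j, e.repr x i * e.repr y j * e.repr (e i * e j) l := by
  have h1 : x * y = ∑ i, ∑ j, (e.repr x i * e.repr y j) • (e i * e j) := by
    conv_lhs => rw [← e.sum_repr x, ← e.sum_repr y, Finset.sum_mul_sum]
    refine Finset.sum_congr rfl fun i _ => Finset.sum_congr rfl fun j _ => ?_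
    rw [smul_mul_smul_comm]
  rw [h1, map_sum, Finset.sum_apply']
  refine Finset.sum_congr rfl fun i _ => ?_
  rw [map_sum, Finset.sum_apply']
  refine Finset.sum_congr rfl fun j _ => ?_
  rw [map_smul, Finsupp.smul_apply, smul_eq_mul]

theorem StrRed.tensor {ι ι' A B A' B' : Type*} [Ring A] [Algebra K A] [Ring B] [Algebra κ B]
    [Ring A'] [Algebra K A'] [Ring B'] [Algebra κ B'] {e : Basis ι K A} {f : Basis ι κ B}
    {e' : Basis ι' K A'} {f' : Basis ι' κ B'} (h : StrRed O π e f) (h' : StrRed O π e' f') :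
    StrRed O π (e.tensorProduct e') (f.tensorProduct f') := by
  rintro ⟨i, i'⟩ ⟨j, j'⟩ ⟨l, l'⟩
  rw [Basis.tensorProduct_apply, Basis.tensorProduct_apply, Basis.tensorProduct_apply,
    Basis.tensorProduct_apply, Algebra.TensorProduct.tmul_mul_tmul,
    Algebra.TensorProduct.tmul_mul_tmul, Basis.tensorProduct_repr_tmul_apply,
    Basis.tensorProduct_repr_tmul_apply, smul_eq_mul, smul_eq_mul]
  exact (h' i' j' l').mul (h i j l)

/-- the reduction of an element with integral coordinates -/
theorem nozd_of_strRed (h : IsPlace (⊤ : Subfield K) O π) {ι : Type*} [Fintype ι] {A B : Type*}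
    [Ring A] [Algebra K A] [Ring B] [Algebra κ B] {e : Basis ι K A} {f : Basis ι κ B}
    (hs : StrRed O π e f) (H : ∀ x y : B, x * y = 0 → x = 0 ∨ y = 0) (x y : A) (hxy : x * y = 0) :
    x = 0 ∨ y = 0 := by
  classical
  by_contra hcon
  push Not at hcon
  obtain ⟨hx, hy⟩ := hcon
  have key : ∀ z : A, z ≠ 0 → ∃ c : K, ∃ g : ι → κ, (∀ i, Red O π (c * e.repr z i) (g i)) ∧
      ∃ i, g i = 1 := by
    intro z hz
    have hne : ∃ i ∈ (Finset.univ : Finset ι), e.repr z i ≠ 0 := by
      by_contra hno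
      push Not at hno
      apply hz
      apply e.repr.injective
      ext i
      rw [map_zero]
      exact hno i (Finset.mem_univ _)
    obtain ⟨c, -, -, hO, i, -, hi⟩ := h.scale Finset.univ (fun i => e.repr z i)
      (fun i _ => Subfield.mem_top _) hne
    refine ⟨c, fun i => π ⟨c * e.repr z i, hO i (Finset.mem_univ _)⟩, fun i => ⟨_, rfl⟩, i, ?_⟩
    exact Red.unique (O := O) (π := π) (z := c * e.repr z i) ⟨_, rfl⟩ (by
      have : c * e.repr z i = 1 := hi
      rw [this]; exact red_one)
  obtain ⟨c, g, hg, i0, hi0⟩ := key x hx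
  obtain ⟨d, g', hg', j0, hj0⟩ := key y hy
  have hprod : (∑ i, g i • f i) * (∑ j, g' j • f j) = 0 := by
    apply f.repr.injective
    ext l
    rw [repr_mul, map_zero, Finsupp.zero_apply]
    have h1 : Red O π (∑ i, ∑ j, (c * e.repr x i) * (d * e.repr y j) * e.repr (e i * e j) l)
        (∑ i, ∑ j, g i * g' j * f.repr (f i * f j) l) :=
      Red.sum _ fun i _ => Red.sum _ fun j _ => ((hg i).mul (hg' j)).mul (hs i j l)
    have h2 : (∑ i, ∑ j, (c * e.repr x i) * (d * e.repr y j) * e.repr (e i * e j) l) = 0 := by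
      have h3 : (∑ i, ∑ j, (c * e.repr x i) * (d * e.repr y j) * e.repr (e i * e j) l) =
          (c * d) * e.repr (x * y) l := by
        rw [repr_mul, Finset.mul_sum]
        refine Finset.sum_congr rfl fun i _ => ?_
        rw [Finset.mul_sum]
        refine Finset.sum_congr rfl fun j _ => ?_
        ring
      rw [h3, hxy, map_zero, Finsupp.zero_apply, mul_zero]
    rw [h2] at h1
    have h4 := h1.unique red_zero
    have h5 : ∀ i, f.repr (∑ i, g i • f i) i = g i := by
      intro i
      rw [f.repr_sum_self]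
    have h6 : ∀ i, f.repr (∑ i, g' i • f i) i = g' i := by
      intro i
      rw [f.repr_sum_self]
    simp only [h5, h6]
    exact h4
  rcases H _ _ hprod with h1 | h1
  · have h2 : f.repr (∑ i, g i • f i) i0 = g i0 := by rw [f.repr_sum_self]
    rw [h1, map_zero, Finsupp.zero_apply, hi0] at h2
    exact one_ne_zero h2.symm
  · have h2 : f.repr (∑ i, g' i • f i) j0 = g' j0 := by rw [f.repr_sum_self]
    rw [h1, map_zero, Finsupp.zero_apply, hj0] at h2
    exact one_ne_zero h2.symm

end alg

section quat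

variable {K κ : Type} [Field K] [Field κ] {O : Subring K} {π : O →+* κ}

theorem strRed_quat {a b : K} {a' b' : κ} (ha : Red O π a a') (hb : Red O π b b') :
    StrRed O π (QuaternionAlgebra.basisOneIJK a 0 b) (QuaternionAlgebra.basisOneIJK a' 0 b') := by
  have e : ∀ (k : Type) [Field k] (a b : k) (i : Fin 4),
      QuaternionAlgebra.basisOneIJK a 0 b i =
        ⟨(![1, 0, 0, 0] : Fin 4 → k) i, (![0, 1, 0, 0] : Fin 4 → k) i,
          (![0, 0, 1, 0] : Fin 4 → k) i, (![0, 0, 0, 1] : Fin 4 → k) i⟩ := by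
    intro k _ a b i
    apply (QuaternionAlgebra.basisOneIJK a 0 b).repr.injective
    ext j
    rw [Basis.repr_self, QuaternionAlgebra.coe_basisOneIJK_repr]
    fin_cases i <;> fin_cases j <;> simp
  intro i j l
  rw [e K a b i, e K a b j, e κ a' b' i, e κ a' b' j, QuaternionAlgebra.mk_mul_mk,
    QuaternionAlgebra.mk_mul_mk, QuaternionAlgebra.coe_basisOneIJK_repr,
    QuaternionAlgebra.coe_basisOneIJK_repr]
  have h0 : Red O π 0 0 := red_zero
  have h1 : Red O π 1 1 := red_one
  have h2 : Red O π (-1) (-1) := red_one.neg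
  have h3 := ha.neg
  have h4 := hb.neg
  have h5 := ha.mul hb
  have h6 := (ha.mul hb).neg
  fin_cases i <;> fin_cases j <;> fin_cases l <;> simp <;> assumption

end quat

/-- (E3) -/
theorem nozd_of_place {K κ : Type} [Field K] [Field κ] {O : Subring K} {π : O →+* κ}
    (h : IsPlace (⊤ : Subfield K) O π) (a b : Fin 3 → K) (al be : Fin 3 → O)
    (ha : ∀ j, a j = al j) (hb : ∀ j, b j = be j)
    (H : NoZD (Q3 κ (fun j => π (al j)) (fun j => π (be j)))) : NoZD (Q3 K a b) := by
  have h1 : ∀ j, Red O π (a j) (π (al j)) := fun j => ⟨ha j ▸ (al j).2, by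
    congr 1; exact Subtype.ext (ha j)⟩
  have h2 : ∀ j, Red O π (b j) (π (be j)) := fun j => ⟨hb j ▸ (be j).2, by
    congr 1; exact Subtype.ext (hb j)⟩
  intro x y hxy
  exact nozd_of_strRed h ((strRed_quat (h1 0) (h2 0)).tensor
    ((strRed_quat (h1 1) (h2 1)).tensor (strRed_quat (h1 2) (h2 2)))) H x y hxy

/-- the same with arbitrary names for the values -/
theorem nozd_of_place' {K κ : Type} [Field K] [Field κ] {O : Subring K} {π : O →+* κ}
    (h : IsPlace (⊤ : Subfield K) O π) (a b : Fin 3 → K) (a' b' : Fin 3 → κ)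
    (ha : ∀ j, ∃ hj : a j ∈ O, π ⟨a j, hj⟩ = a' j) (hb : ∀ j, ∃ hj : b j ∈ O, π ⟨b j, hj⟩ = b' j)
    (H : NoZD (Q3 κ a' b')) : NoZD (Q3 K a b) := by
  intro x y hxy
  exact nozd_of_strRed h ((strRed_quat (ha 0) (hb 0)).tensor
    ((strRed_quat (ha 1) (hb 1)).tensor (strRed_quat (ha 2) (hb 2)))) H x y hxy

end Pool.Agent.PI.H30
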